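import Mathlib

/-!
In a uniformly convex space, long cubes with sides bounded below cannot have bounded diameter.
-/

namespace Pool.Agent.Lib_helper95.Gamma

open Finset

/-- A sequence of signs. -/
def IsSign (σ : ℕ → ℝ) : Prop := ∀ i, σ i = 1 ∨ σ i = -1

/-- `NoCube X δ R`: there are no `R` vectors of norm at least `δ` all of whose signed sums
have norm at most `4`. -/
def NoCube (X : Type*) [NormedAddCommGroup X] [NormedSpace ℝ X] (δ : ℝ) (R : ℕ) : Prop :=
  ∀ d : ℕ → X, (∀ i < R, δ ≤ ‖d i‖) → ∃ σ : ℕ → ℝ, IsSign σ ∧ 4 < ‖∑ i ∈ range R, σ i • d i‖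

theorem uc_noCube (Y : Type*) [NormedAddCommGroup Y] [NormedSpace ℝ Y] [UniformConvexSpace Y]
    (c B : ℝ) (hc : 0 < c) :
    ∃ R : ℕ, ∀ d : ℕ → Y, (∀ i < R, c ≤ ‖d i‖) →
      ∃ σ : ℕ → ℝ, IsSign σ ∧ B < ‖∑ i ∈ range R, σ i • d i‖ := by
  set B' := max B c with hB'
  have hB'pos : 0 < B' := lt_of_lt_of_le hc (le_max_right _ _)
  obtain ⟨τ, hτ, hUC⟩ := exists_forall_closed_ball_dist_add_le_two_sub Y
    (ε := 2 * c / B') (by positivity)
  set q : ℝ := 1 - min τ 1 / 2 with hq
  have hmin : 0 < min τ 1 := lt_min hτ one_pos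
  have hmin1 : min τ 1 ≤ 1 := min_le_right _ _
  have hq0 : 0 < q := by rw [hq]; linarith
  have hq1 : q < 1 := by rw [hq]; linarith
  obtain ⟨N, hN⟩ := exists_pow_lt_of_lt_one (y := q) (x := c / B') (by positivity) hq1
  refine ⟨N + 1, fun d hd => ?_⟩
  by_contra hcon
  push Not at hcon
  have key : ∀ k ≤ N, ∀ σ : ℕ → ℝ, IsSign σ →
      ‖∑ i ∈ range (N + 1 - k), σ i • d i‖ ≤ B' * q ^ k := by
    intro k
    induction k with
    | zero =>
      intro _ σ hσ
      have h1 := hcon σ hσ
      have h2 : B ≤ B' := le_max_left _ _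
      have h3 := h1.trans h2
      simpa using h3
    | succ k ih =>
      intro hk σ hσ
      have hn : N + 1 - k = (N + 1 - (k + 1)) + 1 := by omega
      set n := N + 1 - (k + 1) with hndef
      have hnlt : n < N + 1 := by omega
      have ihk := ih (by omega)
      rw [hn] at ihk
      set S := ∑ i ∈ range n, σ i • d i with hS
      have hs1 : ‖S + d n‖ ≤ B' * q ^ k := by
        have := ihk (Function.update σ n 1) (by
          intro i
          by_cases h : i = n
          · subst h; simp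
          · simpa [Function.update_of_ne h] using hσ i)
        rw [sum_range_succ] at this
        have h2 : ∑ i ∈ range n, (Function.update σ n 1) i • d i = S := by
          apply sum_congr rfl
          intro i hi
          rw [Function.update_of_ne (by simp at hi; omega)]
        rw [h2] at this
        simpa using this
      have hs2 : ‖S - d n‖ ≤ B' * q ^ k := by
        have := ihk (Function.update σ n (-1)) (by
          intro i
          by_cases h : i = n
          · subst h; simp
          · simpa [Function.update_of_ne h] using hσ i)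
        rw [sum_range_succ] at this
        have h2 : ∑ i ∈ range n, (Function.update σ n (-1)) i • d i = S := by
          apply sum_congr rfl
          intro i hi
          rw [Function.update_of_ne (by simp at hi; omega)]
        rw [h2] at this
        simpa [sub_eq_add_neg] using this
      set r := B' * q ^ k with hr
      have hrpos : 0 < r := by positivity
      have hrB : r ≤ B' := by
        rw [hr]
        have : q ^ k ≤ 1 := pow_le_one₀ hq0.le hq1.le
        nlinarith
      have h1 : ‖r⁻¹ • (S + d n)‖ ≤ 1 := by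
        rw [norm_smul, norm_inv, Real.norm_of_nonneg hrpos.le]
        rw [inv_mul_le_iff₀ hrpos]; linarith
      have h2 : ‖r⁻¹ • (S - d n)‖ ≤ 1 := by
        rw [norm_smul, norm_inv, Real.norm_of_nonneg hrpos.le]
        rw [inv_mul_le_iff₀ hrpos]; linarith
      have h3 : 2 * c / B' ≤ ‖r⁻¹ • (S + d n) - r⁻¹ • (S - d n)‖ := by
        rw [← smul_sub, norm_smul, norm_inv, Real.norm_of_nonneg hrpos.le]
        have e : S + d n - (S - d n) = (2 : ℝ) • d n := by rw [two_smul]; abel
        rw [e, norm_smul, Real.norm_of_nonneg (by norm_num : (0:ℝ) ≤ 2)]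
        have hcn := hd n hnlt
        rw [inv_mul_eq_div, div_le_div_iff₀ hB'pos hrpos]
        nlinarith
      have h4 := hUC h1 h2 h3
      rw [← smul_add, norm_smul, norm_inv, Real.norm_of_nonneg hrpos.le] at h4
      have e : S + d n + (S - d n) = (2 : ℝ) • S := by rw [two_smul]; abel
      rw [e, norm_smul, Real.norm_of_nonneg (by norm_num : (0:ℝ) ≤ 2)] at h4
      rw [inv_mul_le_iff₀ hrpos] at h4
      have h5 : ‖S‖ ≤ r * q := by
        have hm : min τ 1 ≤ τ := min_le_left _ _
        have : r * (2 - τ) ≤ r * (2 - min τ 1) := by nlinarith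
        rw [hq]; nlinarith
      calc ‖S‖ ≤ r * q := h5
        _ = B' * q ^ (k + 1) := by rw [hr]; ring
  have hfin := key N le_rfl (fun _ => 1) (fun _ => Or.inl rfl)
  have h1 : N + 1 - N = 1 := by omega
  rw [h1] at hfin
  simp at hfin
  have h2 := hd 0 (by omega)
  have h3 : B' * q ^ N < c := by
    have := mul_lt_mul_of_pos_left hN hB'pos
    rwa [mul_div_cancel₀ _ hB'pos.ne'] at this
  linarith

theorem noCube_of_embedding {X Y : Type*} [NormedAddCommGroup X] [NormedSpace ℝ X]
    [NormedAddCommGroup Y] [NormedSpace ℝ Y] [UniformConvexSpace Y] (T : X →L[ℝ] Y)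
    (c₀ : ℝ) (hc₀ : 0 < c₀) (hT : ∀ x, c₀ * ‖x‖ ≤ ‖T x‖) (δ : ℝ) (hδ : 0 < δ) :
    ∃ R : ℕ, NoCube X δ R := by
  obtain ⟨R, hR⟩ := uc_noCube Y (c₀ * δ) (4 * (‖T‖ + 1)) (by positivity)
  refine ⟨R, fun d hd => ?_⟩
  obtain ⟨σ, hσ, h⟩ := hR (fun i => T (d i)) (fun i hi => by
    refine le_trans ?_ (hT _)
    exact mul_le_mul_of_nonneg_left (hd i hi) hc₀.le)
  refine ⟨σ, hσ, ?_⟩
  have e : ∑ i ∈ range R, σ i • T (d i) = T (∑ i ∈ range R, σ i • d i) := by
    simp [map_sum]
  rw [e] at h
  have h2 := T.le_opNorm (∑ i ∈ range R, σ i • d i)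
  have hpos : 0 < ‖T‖ + 1 := by positivity
  have h3 : ‖T‖ * ‖∑ i ∈ range R, σ i • d i‖ ≤ (‖T‖ + 1) * ‖∑ i ∈ range R, σ i • d i‖ := by
    have := norm_nonneg (∑ i ∈ range R, σ i • d i)
    nlinarith
  have h4 : 4 * (‖T‖ + 1) < (‖T‖ + 1) * ‖∑ i ∈ range R, σ i • d i‖ := by linarith
  by_contra hle
  push Not at hle
  nlinarith

end Pool.Agent.Lib_helper95.Gamma
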