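import Mathlib

/-!
Definitions for the simultaneous packing and covering constant of a real normed space.
-/

namespace Pool.Agent.Lib_helper95.Gamma

universe u

/-- `P` is `r`-separated: distinct points of `P` are at distance at least `r`. -/
def Separated {X : Type u} [NormedAddCommGroup X] (r : ℝ) (P : Set X) : Prop :=
  ∀ x ∈ P, ∀ y ∈ P, x ≠ y → r ≤ ‖x - y‖

/-- `P` is `r`-dense: the closed balls of radius `r` centred at the points of `P` cover `X`. -/
def RDense {X : Type u} [NormedAddCommGroup X] (r : ℝ) (P : Set X) : Prop :=
  ∀ x : X, ∃ p ∈ P, ‖x - p‖ ≤ r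

/-- The simultaneous packing and covering constant of `X`. -/
noncomputable def gamma (X : Type u) [NormedAddCommGroup X] : ℝ :=
  sInf {r : ℝ | 0 < r ∧ ∃ P : Set X, Separated 2 P ∧ RDense r P}

/-- A real normed space is super-reflexive when its completion admits an equivalent uniformly
convex norm, that is, is linearly homeomorphic to a uniformly convex Banach space. -/
def SuperReflexive (X : Type u) [NormedAddCommGroup X] [NormedSpace ℝ X] : Prop :=
  ∃ (Y : Type u) (_ : NormedAddCommGroup Y) (_ : NormedSpace ℝ Y),
    CompleteSpace Y ∧ UniformConvexSpace Y ∧ Nonempty (UniformSpace.Completion X ≃L[ℝ] Y)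

end Pool.Agent.Lib_helper95.Gamma
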