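import Pool.Agent.Lib_helper95.Gamma.Defs

/-!
The finite-dimensional case, by compactness of a torus.
-/

namespace Pool.Agent.Lib_helper95.Gamma

open Metric

/-- A lattice whose nonzero vectors have norm at least `2` and whose translates of a ball cover. -/
theorem exists_lattice (X : Type*) [NormedAddCommGroup X] [NormedSpace ℝ X]
    [FiniteDimensional ℝ X] :
    ∃ L : AddSubgroup X, (∀ l ∈ L, l ≠ 0 → 2 ≤ ‖l‖) ∧ ∃ ρ : ℝ, ∀ x : X, ∃ l ∈ L, ‖x - l‖ ≤ ρ := by
  classical
  let b := Module.finBasis ℝ X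
  let φ : X →L[ℝ] (Fin (Module.finrank ℝ X) → ℝ) := LinearMap.toContinuousLinearMap
    (b.equivFun : X →ₗ[ℝ] (Fin (Module.finrank ℝ X) → ℝ))
  have hφ : ∀ x i, φ x i = b.repr x i := fun x i => rfl
  set C : ℝ := ‖φ‖ + 1 with hC
  have hC0 : 0 < C := by positivity
  have hcoord : ∀ x i, |b.repr x i| ≤ C * ‖x‖ := by
    intro x i
    have h1 : ‖φ x i‖ ≤ ‖φ x‖ := norm_le_pi_norm (φ x) i
    have h2 := φ.le_opNorm x
    rw [hφ, Real.norm_eq_abs] at h1
    have := norm_nonneg x
    nlinarith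
  refine ⟨{ carrier := {x | ∀ i, ∃ m : ℤ, b.repr x i = (2 * C) * m}
            zero_mem' := fun i => ⟨0, by simp⟩
            add_mem' := ?_
            neg_mem' := ?_ }, ?_, ?_⟩
  · intro x y hx hy i
    obtain ⟨m, hm⟩ := hx i
    obtain ⟨n, hn⟩ := hy i
    exact ⟨m + n, by rw [map_add, Finsupp.add_apply, hm, hn]; push_cast; ring⟩
  · intro x hx i
    obtain ⟨m, hm⟩ := hx i
    exact ⟨-m, by rw [map_neg, Finsupp.neg_apply, hm]; push_cast; ring⟩
  · intro l hl hl0
    have hne : ∃ i, b.repr l i ≠ 0 := by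
      by_contra hcon
      push Not at hcon
      apply hl0
      have : b.repr l = 0 := by
        ext i
        exact hcon i
      simpa using this
    obtain ⟨i, hi⟩ := hne
    obtain ⟨m, hm⟩ := hl i
    have hm0 : m ≠ 0 := by
      rintro rfl
      apply hi
      rw [hm]
      simp
    have h1 : (1 : ℝ) ≤ |(m : ℝ)| := by
      have := Int.one_le_abs hm0
      exact_mod_cast this
    have h2 := hcoord l i
    rw [hm, abs_mul, abs_of_pos (by positivity : (0:ℝ) < 2 * C)] at h2
    have h3 : 2 * C ≤ C * ‖l‖ := by nlinarith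
    nlinarith
  · refine ⟨∑ i, C * ‖b i‖, fun x => ?_⟩
    refine ⟨∑ i, ((2 * C) * (round (b.repr x i / (2 * C)) : ℝ)) • b i, ?_, ?_⟩
    · intro i
      refine ⟨round (b.repr x i / (2 * C)), ?_⟩
      have := b.repr_sum_self (fun i => (2 * C) * (round (b.repr x i / (2 * C)) : ℝ))
      exact congrFun this i
    · have hx : x = ∑ i, (b.repr x i) • b i := (b.sum_repr x).symm
      have e : x - ∑ i, ((2 * C) * (round (b.repr x i / (2 * C)) : ℝ)) • b i =
          ∑ i, (b.repr x i - (2 * C) * (round (b.repr x i / (2 * C)) : ℝ)) • b i := by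
        conv_lhs => rw [hx]
        simp only [sub_smul, Finset.sum_sub_distrib, b.sum_repr]
      rw [e]
      refine (norm_sum_le _ _).trans (Finset.sum_le_sum fun i _ => ?_)
      rw [norm_smul, Real.norm_eq_abs]
      refine mul_le_mul_of_nonneg_right ?_ (norm_nonneg _)
      have h := abs_sub_round (b.repr x i / (2 * C))
      have e2 : b.repr x i - (2 * C) * (round (b.repr x i / (2 * C)) : ℝ) =
          (2 * C) * (b.repr x i / (2 * C) - round (b.repr x i / (2 * C))) := by
        field_simp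
      rw [e2, abs_mul, abs_of_pos (by positivity : (0:ℝ) < 2 * C)]
      nlinarith

theorem exists_net_of_finite (X : Type*) [NormedAddCommGroup X] [NormedSpace ℝ X]
    [FiniteDimensional ℝ X] :
    ∃ r < (2 : ℝ), 0 < r ∧ ∃ P : Set X, Separated 2 P ∧ RDense r P := by
  classical
  obtain ⟨L, hL, ρ, hρ⟩ := exists_lattice X
  -- maximal periodic separated sets
  obtain ⟨P, hP⟩ := zorn_subset {P : Set X | Separated 2 P ∧ ∀ p ∈ P, ∀ l ∈ L, p + l ∈ P} (by
    intro c hc hchain
    refine ⟨⋃₀ c, ⟨?_, ?_⟩, fun s hs => Set.subset_sUnion_of_mem hs⟩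
    · rintro x ⟨A, hA, hx⟩ y ⟨B, hB, hy⟩ hxy
      rcases hchain.total hA hB with h | h
      · exact (hc hB).1 x (h hx) y hy hxy
      · exact (hc hA).1 x hx y (h hy) hxy
    · rintro p ⟨A, hA, hp⟩ l hl
      exact ⟨A, hA, (hc hA).2 p hp l hl⟩)
  have hPS : Separated 2 P := hP.prop.1
  have hPL : ∀ p ∈ P, ∀ l ∈ L, p + l ∈ P := hP.prop.2
  -- maximality
  have hmax : ∀ x : X, ∃ p ∈ P, ‖x - p‖ < 2 := by
    intro x
    by_contra hcon
    push Not at hcon
    have hQ : (P ∪ {y | ∃ l ∈ L, y = x + l}) ∈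
        {P : Set X | Separated 2 P ∧ ∀ p ∈ P, ∀ l ∈ L, p + l ∈ P} := by
      refine ⟨?_, ?_⟩
      · have hfar : ∀ p ∈ P, ∀ l ∈ L, 2 ≤ ‖x + l - p‖ := by
          intro p hp l hl
          have h := hcon (p + -l) (hPL p hp (-l) (L.neg_mem hl))
          have e : x - (p + -l) = x + l - p := by abel
          rwa [e] at h
        rintro u (hu | ⟨l, hl, rfl⟩) v (hv | ⟨l', hl', rfl⟩) huv
        · exact hPS u hu v hv huv
        · rw [norm_sub_rev]
          exact hfar u hu l' hl'
        · exact hfar v hv l hl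
        · have e : x + l - (x + l') = l - l' := by abel
          rw [e]
          refine hL _ (L.sub_mem hl hl') ?_
          intro h0
          apply huv
          rw [sub_eq_zero] at h0
          rw [h0]
      · rintro p (hp | ⟨l, hl, rfl⟩) l' hl'
        · exact Or.inl (hPL p hp l' hl')
        · exact Or.inr ⟨l + l', L.add_mem hl hl', by rw [add_assoc]⟩
    have hsub : P ⊆ P ∪ {y | ∃ l ∈ L, y = x + l} := Set.subset_union_left
    have hle := hP.le_of_ge hQ hsub
    have hx : x ∈ P := hle (Or.inr ⟨0, L.zero_mem, by rw [add_zero]⟩)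
    have := hcon x hx
    rw [sub_self, norm_zero] at this
    linarith
  have hne : P.Nonempty := by
    obtain ⟨p, hp, -⟩ := hmax 0
    exact ⟨p, hp⟩
  -- the distance to `P` attains its maximum
  have hcompact : IsCompact (closedBall (0 : X) ρ) := isCompact_closedBall _ _
  have hρ0 : 0 ≤ ρ := by
    obtain ⟨l, -, hl⟩ := hρ 0
    exact (norm_nonneg _).trans hl
  obtain ⟨x₀, -, hx₀⟩ := hcompact.exists_isMaxOn ⟨0, mem_closedBall_self hρ0⟩
    (continuous_infDist_pt P).continuousOn
  have hM : infDist x₀ P < 2 := by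
    obtain ⟨p, hp, hlt⟩ := hmax x₀
    rw [← dist_eq_norm] at hlt
    exact (infDist_le_dist_of_mem hp).trans_lt hlt
  set M := infDist x₀ P with hMdef
  have hM0 : 0 ≤ M := infDist_nonneg
  refine ⟨(M + 2) / 2, by linarith, by linarith, P, hPS, ?_⟩
  intro x
  obtain ⟨l, hl, hxl⟩ := hρ x
  have h1 : infDist (x - l) P ≤ M := hx₀ (by
    rw [mem_closedBall_zero_iff]
    exact hxl)
  have h2 : infDist (x - l) P < (M + 2) / 2 := by linarith
  obtain ⟨p, hp, hlt⟩ := (infDist_lt_iff hne).1 h2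
  refine ⟨p + l, hPL p hp l hl, ?_⟩
  rw [dist_eq_norm] at hlt
  have e : x - (p + l) = x - l - p := by abel
  rw [e]
  exact hlt.le

end Pool.Agent.Lib_helper95.Gamma
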