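import Pool.Agent.Lib_helper95.Gamma.Greedy
import Pool.Agent.Lib_helper95.Gamma.FinDim

/-!
Separable super-reflexive normed spaces have `gamma < 2`.
-/

namespace Pool.Agent.Lib_helper95.Gamma

universe u

theorem gamma_lt_two_of_net {X : Type u} [NormedAddCommGroup X]
    (h : ∃ r < (2 : ℝ), 0 < r ∧ ∃ P : Set X, Separated 2 P ∧ RDense r P) : gamma X < 2 := by
  obtain ⟨r, hr2, hr0, hP⟩ := h
  have hle : gamma X ≤ r := csInf_le ⟨0, fun t ht => ht.1.le⟩ ⟨hr0, hP⟩
  exact hle.trans_lt hr2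

theorem noCube_of_superReflexive {X : Type u} [NormedAddCommGroup X] [NormedSpace ℝ X]
    (h : SuperReflexive X) (δ : ℝ) (hδ : 0 < δ) : ∃ R : ℕ, NoCube X δ R := by
  obtain ⟨Y, i1, i2, hY, hUC, ⟨e⟩⟩ := h
  let T : X →L[ℝ] Y := (e : UniformSpace.Completion X →L[ℝ] Y).comp
    (UniformSpace.Completion.toComplL : X →L[ℝ] UniformSpace.Completion X)
  set c : ℝ := ‖(e.symm : Y →L[ℝ] UniformSpace.Completion X)‖ + 1 with hc
  have hc0 : 0 < c := by positivity
  refine noCube_of_embedding T c⁻¹ (inv_pos.2 hc0) (fun x => ?_) δ hδ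
  have h1 : ‖(x : UniformSpace.Completion X)‖ = ‖x‖ := UniformSpace.Completion.norm_coe x
  have h2 : e.symm (T x) = (x : UniformSpace.Completion X) := e.symm_apply_apply _
  have h3 := (e.symm : Y →L[ℝ] UniformSpace.Completion X).le_opNorm (T x)
  have h4 : ‖x‖ ≤ ‖(e.symm : Y →L[ℝ] UniformSpace.Completion X)‖ * ‖T x‖ := by
    rw [← h1, ← h2]
    exact h3
  rw [inv_mul_le_iff₀ hc0]
  have := norm_nonneg (T x)
  nlinarith

/-- Every separable super-reflexive normed space has `gamma < 2`. -/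
theorem gamma_lt_two (X : Type u) [NormedAddCommGroup X] [NormedSpace ℝ X]
    [TopologicalSpace.SeparableSpace X] (h : SuperReflexive X) : gamma X < 2 := by
  apply gamma_lt_two_of_net
  by_cases hfin : FiniteDimensional ℝ X
  · exact exists_net_of_finite X
  · obtain ⟨R, hR⟩ := noCube_of_superReflexive h (1 / 32) (by norm_num)
    exact exists_net_of_noCube hfin R hR

end Pool.Agent.Lib_helper95.Gamma
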