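import Pool.Agent.Lib_helper95.Gamma.Defs

/-!
The transfinite greedy construction in a super-reflexive space of any density.
-/

namespace Pool.Agent.Lib_helper95.Gamma

open Set Cardinal

universe u

section Generic

variable {X : Type*} [NormedAddCommGroup X] [NormedSpace ℝ X]
variable {Y : Type*} [NormedAddCommGroup Y] [NormedSpace ℝ Y]

/-- `Lower T c Z`: the quotient seminorm of `x ↦ ‖T x‖` modulo `Z` is at most `‖x‖ / c`. -/
def Lower (T : X →L[ℝ] Y) (c : ℝ) (Z : Submodule ℝ X) : Prop :=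
  ∀ (x : X) (t : ℝ), ‖x‖ < c * t → ∃ z ∈ Z, ‖T (x - z)‖ < t

/-- Failure of `Lower` produces a normalized vector. -/
theorem exists_of_not_lower (T : X →L[ℝ] Y) (c : ℝ) (hc : 0 < c) (Z : Submodule ℝ X)
    (h : ¬ Lower T c Z) : ∃ a : X, ‖a‖ < c ∧ ∀ z ∈ Z, 1 ≤ ‖T (a - z)‖ := by
  unfold Lower at h
  push Not at h
  obtain ⟨x, t, hxt, hz⟩ := h
  have ht : 0 < t := by
    by_contra hcon
    push Not at hcon
    have := norm_nonneg x
    nlinarith
  refine ⟨t⁻¹ • x, ?_, fun z hzZ => ?_⟩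
  · rw [norm_smul, norm_inv, Real.norm_of_nonneg ht.le, inv_mul_lt_iff₀ ht]
    linarith
  · have h1 := hz (t • z) (Z.smul_mem t hzZ)
    have e : t⁻¹ • x - z = t⁻¹ • (x - t • z) := by
      rw [smul_sub, smul_smul, inv_mul_cancel₀ ht.ne', one_smul]
    rw [e, map_smul, norm_smul, norm_inv, Real.norm_of_nonneg ht.le]
    rw [inv_mul_eq_div, le_div_iff₀ ht]
    linarith

theorem lower_of_small (T : X →L[ℝ] Y) (Z : Submodule ℝ X) : Lower T (‖T‖ + 1)⁻¹ Z := by
  intro x t hxt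
  refine ⟨0, Z.zero_mem, ?_⟩
  have hpos : 0 < ‖T‖ + 1 := by positivity
  rw [inv_mul_eq_div, lt_div_iff₀ hpos] at hxt
  rw [sub_zero]
  have h1 := T.le_opNorm x
  have := norm_nonneg x
  nlinarith

theorem lower_le (T : X →L[ℝ] Y) (c₀ : ℝ) (hc₀ : 0 < c₀) (hT : ∀ x, c₀ * ‖x‖ ≤ ‖T x‖)
    (c : ℝ) (Z : Submodule ℝ X) (hZ : Z.topologicalClosure ≠ ⊤) (h : Lower T c Z) :
    c ≤ c₀⁻¹ := by
  by_contra hcon
  push Not at hcon
  have hc : 0 < c := lt_trans (inv_pos.2 hc₀) hcon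
  set q : ℝ := 1 / (c * c₀) with hq
  have hq0 : 0 < q := by positivity
  have hcc : 1 < c * c₀ := by
    have := mul_lt_mul_of_pos_right hcon hc₀
    rwa [inv_mul_cancel₀ hc₀.ne'] at this
  have hq1 : q < 1 := by
    rw [hq, div_lt_one (by positivity)]
    exact hcc
  have hne : ∃ x : X, x ∉ Z.topologicalClosure := by
    by_contra hall
    push Not at hall
    exact hZ (eq_top_iff.2 fun x _ => hall x)
  obtain ⟨x₀, hx₀, hx⟩ := riesz_lemma (Z.isClosed_topologicalClosure) hne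
    (r := (q + 1) / 2) (by linarith)
  have hx0 : x₀ ≠ 0 := fun h => hx₀ (h ▸ Submodule.zero_mem _)
  have hpos : 0 < ‖x₀‖ := norm_pos_iff.2 hx0
  obtain ⟨z, hz, hzt⟩ := h x₀ (‖x₀‖ * ((q + 1) / 2) * c₀) (by
    have e : c * (‖x₀‖ * ((q + 1) / 2) * c₀) = ‖x₀‖ * ((c * c₀) * ((q + 1) / 2)) := by ring
    rw [e]
    have e2 : (c * c₀) * q = 1 := by rw [hq]; field_simp
    have e3 : (c * c₀) * ((q + 1) / 2) = (1 + c * c₀) / 2 := by
      linear_combination (1 / 2 : ℝ) * e2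
    rw [e3]
    nlinarith)
  have h1 := hx z (Z.le_topologicalClosure hz)
  have h2 := hT (x₀ - z)
  nlinarith

variable (Small : Set X → Prop)

/-- The key lemma: generic vectors modulo small subspaces. -/
theorem exists_generic [UniformConvexSpace Y] (T : X →L[ℝ] Y) (c₀ : ℝ) (hc₀ : 0 < c₀)
    (hT : ∀ x, c₀ * ‖x‖ ≤ ‖T x‖) (h0 : Small ∅)
    (hprop : ∀ S, Small S → (Submodule.span ℝ S).topologicalClosure ≠ ⊤) :
    ∃ ε > (0 : ℝ), ε ≤ 1 / 8 ∧ ∃ S₀, Small S₀ ∧ ∀ S, Small S → S₀ ⊆ S →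
      ∃ a : X, ‖a‖ ≤ 2 - 2 * ε ∧ (∀ v ∈ Submodule.span ℝ S, 1 / 4 < ‖a - v‖) ∧
        ∀ v ∈ Submodule.span ℝ S, ‖v + a‖ < 2 + ε →
          ∃ z ∈ Submodule.span ℝ S₀, ‖v - z‖ ≤ 1 / 8 := by
  set A : Set ℝ := {c | 0 < c ∧ ∃ S, Small S ∧ Lower T c (Submodule.span ℝ S)} with hA
  have hTpos : 0 < ‖T‖ + 1 := by positivity
  have hA1 : (‖T‖ + 1)⁻¹ ∈ A := ⟨inv_pos.2 hTpos, ∅, h0, lower_of_small T _⟩
  have hAb : BddAbove A := ⟨c₀⁻¹, fun c hc => by
    obtain ⟨-, S, hS, hL⟩ := hc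
    exact lower_le T c₀ hc₀ hT c _ (hprop S hS) hL⟩
  set cs : ℝ := sSup A with hcs
  have hcs1 : (‖T‖ + 1)⁻¹ ≤ cs := le_csSup hAb hA1
  have hcs0 : 0 < cs := lt_of_lt_of_le (inv_pos.2 hTpos) hcs1
  -- uniform convexity
  set δ : ℝ := 1 / (16 * (‖T‖ + 1)) with hδ
  have hδ0 : 0 < δ := by positivity
  obtain ⟨τ, hτ, hUC⟩ := exists_forall_closed_ball_dist_add_le_two_sub Y
    (ε := c₀ * δ / 2) (by positivity)
  set η : ℝ := min τ 1 / 8 with hη
  have hm : 0 < min τ 1 := lt_min hτ one_pos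
  have hm1 : min τ 1 ≤ 1 := min_le_right _ _
  have hmτ : min τ 1 ≤ τ := min_le_left _ _
  have hη0 : 0 < η := by rw [hη]; positivity
  have hη1 : η ≤ 1 / 8 := by rw [hη]; linarith
  have hητ : 8 * η ≤ τ := by rw [hη]; linarith
  set t : ℝ := (1 + η) ^ 3 with ht
  have ht0 : 0 < t := by positivity
  have ht2 : t ≤ 2 := by
    rw [ht]
    have h1 : (1 + η) ≤ 9 / 8 := by linarith
    have h2 : (1 + η) ^ 3 ≤ (9 / 8 : ℝ) ^ 3 := pow_le_pow_left₀ (by linarith) h1 3
    refine h2.trans (by norm_num)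
  have htτ : t * (2 - τ) < 2 := by
    have h1 : t * (2 - τ) ≤ t * (2 - 8 * η) := mul_le_mul_of_nonneg_left (by linarith) ht0.le
    have h2 : t ≤ 1 + 4 * η := by
      rw [ht]
      nlinarith [sq_nonneg η, mul_pos hη0 hη0, mul_pos (mul_pos hη0 hη0) hη0]
    have h3 : t * (2 - 8 * η) ≤ (1 + 4 * η) * (2 - 8 * η) :=
      mul_le_mul_of_nonneg_right h2 (by linarith)
    nlinarith
  -- the almost optimal constants
  obtain ⟨c₁, hc₁, hc₁cs⟩ := exists_lt_of_lt_csSup ⟨_, hA1⟩ (show cs / (1 + η) < cs by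
    rw [div_lt_iff₀ (by linarith)]
    nlinarith)
  obtain ⟨hc₁0, S₀, hS₀, hL₁⟩ := hc₁
  set c₂ : ℝ := (1 + η) * cs with hc₂
  have hc₂0 : 0 < c₂ := by positivity
  have hc₂A : ∀ S, Small S → ¬ Lower T c₂ (Submodule.span ℝ S) := by
    intro S hS hL
    have : c₂ ≤ cs := le_csSup hAb ⟨hc₂0, S, hS, hL⟩
    rw [hc₂] at this
    nlinarith
  have hcs_lt : cs < (1 + η) * c₁ := by
    rw [div_lt_iff₀ (by linarith)] at hc₁cs
    linarith
  have hc₂c₁ : c₂ < (1 + η) ^ 2 * c₁ := by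
    rw [hc₂]
    have := mul_lt_mul_of_pos_left hcs_lt (show 0 < 1 + η by linarith)
    calc (1 + η) * cs < (1 + η) * ((1 + η) * c₁) := this
      _ = (1 + η) ^ 2 * c₁ := by ring
  set ε : ℝ := η / 8 with hε
  have hε0 : 0 < ε := by positivity
  refine ⟨ε, hε0, by rw [hε]; linarith, S₀, hS₀, fun S hS hS₀S => ?_⟩
  obtain ⟨a, ha, haz⟩ := exists_of_not_lower T c₂ hc₂0 _ (hc₂A S hS)
  have hspan : Submodule.span ℝ S₀ ≤ Submodule.span ℝ S := Submodule.span_mono hS₀S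
  set s : ℝ := (2 - 2 * ε) / c₂ with hs
  have hs0 : 0 < s := by
    rw [hs]
    apply div_pos _ hc₂0
    rw [hε]; linarith
  have hsc₂ : s * c₂ = 2 - 2 * ε := by rw [hs]; field_simp
  have hs2 : s ≤ 2 * (‖T‖ + 1) := by
    rw [hs, div_le_iff₀ hc₂0]
    have h1 : (‖T‖ + 1)⁻¹ ≤ c₂ := by
      rw [hc₂]
      nlinarith
    have h2 : 1 ≤ (‖T‖ + 1) * c₂ := by
      have := mul_le_mul_of_nonneg_left h1 hTpos.le
      rwa [mul_inv_cancel₀ hTpos.ne'] at this
    nlinarith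
  -- distance of `a` from the span of `S`
  have hdist : ∀ v ∈ Submodule.span ℝ S, c₁ ≤ ‖a - v‖ := by
    intro v hv
    by_contra hlt
    push Not at hlt
    obtain ⟨z, hz, hzt⟩ := hL₁ (a - v) 1 (by linarith)
    have h1 := haz (v + z) (Submodule.add_mem _ hv (hspan hz))
    have e : a - v - z = a - (v + z) := by abel
    rw [e] at hzt
    linarith
  refine ⟨s • a, ?_, ?_, ?_⟩
  · rw [norm_smul, Real.norm_of_nonneg hs0.le, ← hsc₂]
    exact mul_le_mul_of_nonneg_left ha.le hs0.le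
  · intro v hv
    have h1 := hdist (s⁻¹ • v) (Submodule.smul_mem _ _ hv)
    have e : s • a - v = s • (a - s⁻¹ • v) := by
      rw [smul_sub, smul_smul, mul_inv_cancel₀ hs0.ne', one_smul]
    rw [e, norm_smul, Real.norm_of_nonneg hs0.le]
    have h2 : s * c₁ ≤ s * ‖a - s⁻¹ • v‖ := mul_le_mul_of_nonneg_left h1 hs0.le
    have h3 : s * c₂ < (1 + η) ^ 2 * (s * c₁) := by
      have := mul_lt_mul_of_pos_left hc₂c₁ hs0
      calc s * c₂ < s * ((1 + η) ^ 2 * c₁) := this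
        _ = (1 + η) ^ 2 * (s * c₁) := by ring
    rw [hsc₂] at h3
    have h4 : (1 + η) ^ 2 ≤ 2 := by nlinarith
    have h5 : (1 + η) ^ 2 * (s * c₁) ≤ 2 * (s * c₁) :=
      mul_le_mul_of_nonneg_right h4 (by positivity)
    have h6 : ε ≤ 1 / 64 := by rw [hε]; linarith
    linarith
  · intro v hv hva
    set u : X := s⁻¹ • v with hu
    have huS : u ∈ Submodule.span ℝ S := Submodule.smul_mem _ _ hv
    have hvu : v = s • u := by rw [hu, smul_smul, mul_inv_cancel₀ hs0.ne', one_smul]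
    have hua : ‖u + a‖ < c₂ * (1 + η) := by
      have e : v + s • a = s • (u + a) := by rw [smul_add, ← hvu]
      rw [e, norm_smul, Real.norm_of_nonneg hs0.le] at hva
      have h1 : 2 + ε ≤ s * (c₂ * (1 + η)) := by
        rw [← mul_assoc, hsc₂, hε]
        nlinarith
      have h2 : s * ‖u + a‖ < s * (c₂ * (1 + η)) := lt_of_lt_of_le hva h1
      exact lt_of_mul_lt_mul_left h2 hs0.le
    have hct : c₂ * (1 + η) < c₁ * t := by
      have := mul_lt_mul_of_pos_right hc₂c₁ (show 0 < 1 + η by linarith)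
      calc c₂ * (1 + η) < (1 + η) ^ 2 * c₁ * (1 + η) := this
        _ = c₁ * t := by rw [ht]; ring
    have hct' : c₂ < c₁ * t := by
      have : c₂ ≤ c₂ * (1 + η) := by nlinarith
      linarith
    obtain ⟨z₀, hz₀, hz₀t⟩ := hL₁ a t (ha.trans hct')
    obtain ⟨z₁, hz₁, hz₁t⟩ := hL₁ (u + a) t (hua.trans hct)
    have hmid : 2 ≤ ‖T (a - z₀) + T (u + a - z₁)‖ := by
      have h1 := haz ((1 / 2 : ℝ) • (z₀ + z₁ - u)) (Submodule.smul_mem _ _
        (Submodule.sub_mem _ (Submodule.add_mem _ (hspan hz₀) (hspan hz₁)) huS))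
      have e : T (a - z₀) + T (u + a - z₁) =
          (2 : ℝ) • T (a - (1 / 2 : ℝ) • (z₀ + z₁ - u)) := by
        rw [← map_add, ← map_smul]
        congr 1
        rw [smul_sub, smul_smul, two_smul]
        norm_num
        abel
      rw [e, norm_smul, Real.norm_of_nonneg (by norm_num : (0:ℝ) ≤ 2)]
      linarith
    have hclose : ‖T (a - z₀) - T (u + a - z₁)‖ < t * (c₀ * δ / 2) := by
      by_contra hfar
      push Not at hfar
      have h1 : ‖t⁻¹ • T (a - z₀)‖ ≤ 1 := by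
        rw [norm_smul, norm_inv, Real.norm_of_nonneg ht0.le, inv_mul_le_iff₀ ht0]
        linarith
      have h2 : ‖t⁻¹ • T (u + a - z₁)‖ ≤ 1 := by
        rw [norm_smul, norm_inv, Real.norm_of_nonneg ht0.le, inv_mul_le_iff₀ ht0]
        linarith
      have h3 : c₀ * δ / 2 ≤ ‖t⁻¹ • T (a - z₀) - t⁻¹ • T (u + a - z₁)‖ := by
        rw [← smul_sub, norm_smul, norm_inv, Real.norm_of_nonneg ht0.le, inv_mul_eq_div,
          le_div_iff₀ ht0]
        linarith
      have h4 := hUC h1 h2 h3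
      rw [← smul_add, norm_smul, norm_inv, Real.norm_of_nonneg ht0.le,
        inv_mul_le_iff₀ ht0] at h4
      linarith
    refine ⟨s • (z₁ - z₀), Submodule.smul_mem _ _ (Submodule.sub_mem _ hz₁ hz₀), ?_⟩
    have e1 : T (a - z₀) - T (u + a - z₁) = - T (u - (z₁ - z₀)) := by
      rw [← map_sub, ← map_neg]
      congr 1
      abel
    rw [e1, norm_neg] at hclose
    have h1 := hT (u - (z₁ - z₀))
    have h2 : c₀ * ‖u - (z₁ - z₀)‖ < c₀ * δ := by
      have : t * (c₀ * δ / 2) ≤ 2 * (c₀ * δ / 2) :=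
        mul_le_mul_of_nonneg_right ht2 (by positivity)
      linarith
    have h3 : ‖u - (z₁ - z₀)‖ < δ := lt_of_mul_lt_mul_left h2 hc₀.le
    rw [hvu, ← smul_sub, norm_smul, Real.norm_of_nonneg hs0.le]
    have h4 : s * ‖u - (z₁ - z₀)‖ ≤ (2 * (‖T‖ + 1)) * δ :=
      mul_le_mul hs2 h3.le (norm_nonneg _) (by positivity)
    have h5 : (2 * (‖T‖ + 1)) * δ = 1 / 8 := by
      rw [hδ]
      field_simp
      norm_num
    linarith

/-- `Far S₀ v w`: the points `v`, `w` are at distance at least `2` and their difference keeps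
away from the span of `S₀`. -/
def Far (S₀ : Set X) (v w : X) : Prop :=
  2 ≤ ‖v - w‖ ∧ ∀ z ∈ Submodule.span ℝ S₀, 1 / 4 < ‖v - w - z‖

theorem Far.symm {S₀ : Set X} {v w : X} (h : Far S₀ v w) : Far S₀ w v := by
  refine ⟨by rw [norm_sub_rev]; exact h.1, fun z hz => ?_⟩
  have h1 := h.2 (-z) (Submodule.neg_mem _ hz)
  have e : v - w - -z = -(w - v - z) := by abel
  rwa [e, norm_neg] at h1

/-- The extension step of the greedy construction. -/
theorem exists_step_general (ε : ℝ) (hε0 : 0 < ε) (hε : ε ≤ 1 / 8) (S₀ : Set X)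
    (hS₀ : Small S₀) (hunion : ∀ S S', Small S → Small S' → Small (S ∪ S'))
    (hsing : ∀ x : X, Small {x})
    (hgen : ∀ S, Small S → S₀ ⊆ S →
      ∃ a : X, ‖a‖ ≤ 2 - 2 * ε ∧ (∀ v ∈ Submodule.span ℝ S, 1 / 4 < ‖a - v‖) ∧
        ∀ v ∈ Submodule.span ℝ S, ‖v + a‖ < 2 + ε →
          ∃ z ∈ Submodule.span ℝ S₀, ‖v - z‖ ≤ 1 / 8)
    (P : Set X) (hP : Small P) (hPfar : ∀ p ∈ P, ∀ q ∈ P, p ≠ q → Far S₀ p q)
    (x : X) (hx : ∀ q ∈ P, 2 - ε < ‖x - q‖) :
    ∃ y : X, ‖x - y‖ ≤ 2 - ε ∧ ∀ q ∈ P, Far S₀ y q := by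
  set S : Set X := S₀ ∪ (P ∪ {x}) with hS
  have hSsmall : Small S := hunion _ _ hS₀ (hunion _ _ hP (hsing x))
  have hS₀S : S₀ ⊆ S := subset_union_left
  have hspan : Submodule.span ℝ S₀ ≤ Submodule.span ℝ S := Submodule.span_mono hS₀S
  have hxS : x ∈ Submodule.span ℝ S := Submodule.subset_span (by simp [hS])
  have hPS : ∀ p ∈ P, p ∈ Submodule.span ℝ S := fun p hp =>
    Submodule.subset_span (by simp [hS, hp])
  obtain ⟨a, ha1, ha2, ha3⟩ := hgen S hSsmall hS₀S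
  -- the generic vector with a sign
  have hgood : ∀ σ : ℝ, (σ = 1 ∨ σ = -1) → ∀ v ∈ Submodule.span ℝ S,
      (∀ z ∈ Submodule.span ℝ S₀, 1 / 8 < ‖v - z‖) → 2 + ε ≤ ‖v + σ • a‖ := by
    intro σ hσ v hv hvz
    by_contra hlt
    push Not at hlt
    have hσσ : σ * σ = 1 := by rcases hσ with h | h <;> rw [h] <;> norm_num
    have hσn : |σ| = 1 := by rcases hσ with h | h <;> rw [h] <;> norm_num
    have e : v + σ • a = σ • (σ • v + a) := by
      rw [smul_add, smul_smul, hσσ, one_smul]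
    rw [e, norm_smul, Real.norm_eq_abs, hσn, one_mul] at hlt
    obtain ⟨z, hz, hvz'⟩ := ha3 (σ • v) (Submodule.smul_mem _ _ hv) hlt
    have h1 := hvz (σ • z) (Submodule.smul_mem _ _ hz)
    have e2 : v - σ • z = σ • (σ • v - z) := by
      rw [smul_sub, smul_smul, hσσ, one_smul]
    rw [e2, norm_smul, Real.norm_eq_abs, hσn, one_mul] at h1
    linarith
  have hesc : ∀ σ : ℝ, (σ = 1 ∨ σ = -1) → ∀ v ∈ Submodule.span ℝ S, 1 / 4 < ‖v + σ • a‖ := by
    intro σ hσ v hv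
    have hσσ : σ * σ = 1 := by rcases hσ with h | h <;> rw [h] <;> norm_num
    have hσn : |σ| = 1 := by rcases hσ with h | h <;> rw [h] <;> norm_num
    have e : v + σ • a = σ • (a - -(σ • v)) := by
      rw [smul_sub, smul_neg, smul_smul, hσσ, one_smul]
      abel
    rw [e, norm_smul, Real.norm_eq_abs, hσn, one_mul]
    exact ha2 _ (Submodule.neg_mem _ (Submodule.smul_mem _ _ hv))
  -- the correction
  have main : ∃ (w : X) (σ : ℝ), (σ = 1 ∨ σ = -1) ∧ w ∈ Submodule.span ℝ S ∧ ‖w‖ ≤ ε ∧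
      ∀ q ∈ P, 2 ≤ ‖(x + w + σ • a) - q‖ := by
    by_cases hbad : ∃ p ∈ P, ∃ z ∈ Submodule.span ℝ S₀, ‖(x - p) - z‖ ≤ 1 / 8
    · obtain ⟨p, hp, z, hz, hpz⟩ := hbad
      have hxp : 0 < ‖x - p‖ := by
        have := hx p hp
        linarith
      obtain ⟨φ, hφ1, hφ2⟩ := exists_dual_vector'' ℝ (x - p)
      have hφle : ∀ v, φ v ≤ ‖v‖ := by
        intro v
        have h1 : φ v ≤ ‖φ v‖ := Real.le_norm_self _
        have h2 := φ.le_opNorm v
        have h3 := norm_nonneg v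
        nlinarith
      have hsign : ∃ σ : ℝ, (σ = 1 ∨ σ = -1) ∧ 0 ≤ σ * φ a := by
        rcases le_total 0 (φ a) with h | h
        · exact ⟨1, Or.inl rfl, by linarith⟩
        · exact ⟨-1, Or.inr rfl, by linarith⟩
      obtain ⟨σ, hσ, hσφ⟩ := hsign
      have hσn : |σ| = 1 := by rcases hσ with h | h <;> rw [h] <;> norm_num
      have hw : ‖(ε / ‖x - p‖) • (x - p)‖ = ε := by
        rw [norm_smul, norm_div, norm_norm, Real.norm_of_nonneg hε0.le,
          div_mul_cancel₀ _ hxp.ne']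
      refine ⟨(ε / ‖x - p‖) • (x - p), σ, hσ,
        Submodule.smul_mem _ _ (Submodule.sub_mem _ hxS (hPS p hp)), hw.le, ?_⟩
      intro q hq
      by_cases hqp : q = p
      · subst hqp
        have e : (x + (ε / ‖x - q‖) • (x - q) + σ • a) - q =
            (x - q) + (ε / ‖x - q‖) • (x - q) + σ • a := by abel
        rw [e]
        refine le_trans ?_ (hφle _)
        rw [map_add, map_add, map_smul, map_smul, hφ2]
        have h2 : (ε / ‖x - q‖) • ((‖x - q‖ : ℝ)) = ε := by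
          rw [smul_eq_mul, div_mul_cancel₀ _ hxp.ne']
        have h3 : σ • φ a = σ * φ a := smul_eq_mul _ _
        have h5 := hx q hq
        simp only [RCLike.ofReal_real_eq_id, id_eq] at *
        rw [h2, h3]
        linarith
      · have hv : ∀ z' ∈ Submodule.span ℝ S₀, 1 / 8 < ‖(x - q) - z'‖ := by
          intro z' hz'
          by_contra hlt
          push Not at hlt
          have h1 := (hPfar q hq p hp hqp).2 (z - z') (Submodule.sub_mem _ hz hz')
          have e : q - p - (z - z') = ((x - p) - z) - ((x - q) - z') := by abel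
          rw [e] at h1
          have h2 := norm_sub_le ((x - p) - z) ((x - q) - z')
          linarith
        have h3 := hgood σ hσ (x - q) (Submodule.sub_mem _ hxS (hPS q hq)) hv
        have e : (x + (ε / ‖x - p‖) • (x - p) + σ • a) - q =
            ((x - q) + σ • a) - (-((ε / ‖x - p‖) • (x - p))) := by abel
        rw [e]
        have h1 := norm_sub_norm_le ((x - q) + σ • a) (-((ε / ‖x - p‖) • (x - p)))
        rw [norm_neg, hw] at h1
        linarith
    · push Not at hbad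
      refine ⟨0, 1, Or.inl rfl, Submodule.zero_mem _, by simpa using hε0.le, ?_⟩
      intro q hq
      have h3 := hgood 1 (Or.inl rfl) (x - q) (Submodule.sub_mem _ hxS (hPS q hq)) (hbad q hq)
      have e : (x + 0 + (1 : ℝ) • a) - q = (x - q) + (1 : ℝ) • a := by abel
      rw [e]
      linarith
  obtain ⟨w, σ, hσ, hwS, hw, hq⟩ := main
  have hσn : |σ| = 1 := by rcases hσ with h | h <;> rw [h] <;> norm_num
  refine ⟨x + w + σ • a, ?_, fun q hqP => ⟨hq q hqP, fun z hz => ?_⟩⟩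
  · have e : x - (x + w + σ • a) = -(w + σ • a) := by abel
    rw [e, norm_neg]
    refine (norm_add_le _ _).trans ?_
    rw [norm_smul, Real.norm_eq_abs, hσn, one_mul]
    linarith
  · have e : x + w + σ • a - q - z = (x + w - q - z) + σ • a := by abel
    rw [e]
    exact hesc σ hσ _ (Submodule.sub_mem _ (Submodule.sub_mem _ (Submodule.add_mem _ hxS hwS)
      (hPS q hqP)) (hspan hz))

end Generic

end Pool.Agent.Lib_helper95.Gamma
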