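import Pool.Agent.Lib_helper95.Gamma.Types
import Pool.Agent.Lib_helper95.Gamma.Defs

/-!
The greedy construction in a separable infinite-dimensional space.
-/

namespace Pool.Agent.Lib_helper95.Gamma

open Finset Filter

/-- The invariant of the greedy construction. -/
def Inv {X : Type*} [NormedAddCommGroup X] (ρ : ℝ) (G : Finset X) (P : Finset X) : Prop :=
  ∀ p ∈ P, ∀ q ∈ P, p ≠ q → 2 ≤ ‖p - q‖ ∧ ∀ g ∈ G, ∀ g' ∈ G, ρ < ‖(p - q) - (g - g')‖

theorem inv_empty {X : Type*} [NormedAddCommGroup X] (ρ : ℝ) (G : Finset X) :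
    Inv ρ G (∅ : Finset X) := by
  intro p hp
  simp at hp

theorem inv_insert {X : Type*} [NormedAddCommGroup X] [DecidableEq X] (ρ : ℝ) (G : Finset X)
    (P : Finset X) (hP : Inv ρ G P) (y : X)
    (hy : ∀ q ∈ P, 2 ≤ ‖y - q‖ ∧ ∀ g ∈ G, ∀ g' ∈ G, ρ < ‖(y - q) - (g - g')‖) :
    Inv ρ G (insert y P) := by
  intro p hp q hq hpq
  rw [mem_insert] at hp hq
  rcases hp with rfl | hp
  · rcases hq with rfl | hq
    · exact absurd rfl hpq
    · exact hy q hq
  · rcases hq with rfl | hq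
    · refine ⟨?_, fun g hg g' hg' => ?_⟩
      · rw [norm_sub_rev]
        exact (hy p hp).1
      · have h := (hy p hp).2 g' hg' g hg
        have e : q - p - (g' - g) = -(p - q - (g - g')) := by abel
        rw [e, norm_neg] at h
        exact h
    · exact hP p hp q hq hpq

/-- The extension step. -/
theorem exists_step {X : Type*} [NormedAddCommGroup X] [NormedSpace ℝ X] [DecidableEq X]
    (U : Ultrafilter X) (θ η : ℝ) (F : Finset X) (hθ1 : 1 ≤ θ) (hθ2 : θ ≤ 2) (hη : 0 < η)
    (hη1 : η ≤ 1) (hb : ∀ᶠ a in (U : Filter X), ‖a‖ ≤ θ)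
    (he : ∀ c : X, ∀ᶠ a in (U : Filter X), 1 / 2 ≤ ‖a - c‖)
    (hF : ∀ v : X, (∀ᶠ a in (U : Filter X), ‖v + a‖ ≤ θ + η) → ∃ f ∈ F, ‖v - f‖ < 1 / 32) :
    ∃ G : Finset X, ∀ (P : Finset X) (x : X), Inv (1 / 8) G P →
      (∀ q ∈ P, 2 - η / 8 < ‖x - q‖) →
      ∃ y : X, ‖x - y‖ ≤ 2 - η / 8 ∧ Inv (1 / 8) G (insert y P) := by
  set ε : ℝ := η / 8 with hε
  have hε0 : 0 < ε := by positivity
  have hε1 : ε ≤ 1 / 8 := by rw [hε]; linarith
  set s : ℝ := (2 - 2 * ε) / θ with hs
  have hθpos : 0 < θ := by linarith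
  have hsθ : s * θ = 2 - 2 * ε := by rw [hs]; field_simp
  have hs0 : 0 < s := by
    rw [hs]
    apply div_pos _ hθpos
    linarith
  have hs2 : s ≤ 2 := by
    rw [hs, div_le_iff₀ hθpos]
    nlinarith
  have hs12 : 3 / 4 ≤ s := by
    rw [hs, le_div_iff₀ hθpos]
    nlinarith
  have hsη : 3 * ε ≤ s * η := by
    have : η = 8 * ε := by rw [hε]; ring
    rw [this]
    nlinarith
  refine ⟨F.image (fun f => s • f) ∪ F.image (fun f => -(s • f)), ?_⟩
  set G := F.image (fun f => s • f) ∪ F.image (fun f => -(s • f)) with hG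
  intro P x hP hx
  -- not bad points keep their distance
  have good : ∀ q, (∀ g ∈ G, 1 / 16 ≤ ‖(x - q) - g‖) → ∀ σ : ℝ, (σ = 1 ∨ σ = -1) →
      ∀ᶠ a in (U : Filter X), s * (θ + η) < ‖(x - q) + (σ * s) • a‖ := by
    intro q hq σ hσ
    have hσσ : σ * σ = 1 := by rcases hσ with h | h <;> rw [h] <;> norm_num
    have hσn : |σ| = 1 := by rcases hσ with h | h <;> rw [h] <;> norm_num
    have hnot : ¬ ∀ᶠ a in (U : Filter X), ‖(σ * s⁻¹) • (x - q) + a‖ ≤ θ + η := by
      intro hcon
      obtain ⟨f, hf, hfn⟩ := hF _ hcon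
      have h1 : ‖(x - q) - (σ * s) • f‖ < 1 / 16 := by
        have e : (x - q) - (σ * s) • f = (σ * s) • ((σ * s⁻¹) • (x - q) - f) := by
          rw [smul_sub, smul_smul]
          have : σ * s * (σ * s⁻¹) = 1 := by
            calc σ * s * (σ * s⁻¹) = (σ * σ) * (s * s⁻¹) := by ring
              _ = 1 := by rw [hσσ, mul_inv_cancel₀ hs0.ne', one_mul]
          rw [this, one_smul]
        rw [e, norm_smul, Real.norm_eq_abs, abs_mul, hσn, one_mul, abs_of_pos hs0]
        have := norm_nonneg ((σ * s⁻¹) • (x - q) - f)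
        nlinarith
      have h2 : (σ * s) • f ∈ G := by
        rw [hG, mem_union, mem_image, mem_image]
        rcases hσ with h | h
        · left; exact ⟨f, hf, by rw [h, one_mul]⟩
        · right; exact ⟨f, hf, by rw [h, neg_one_mul, neg_smul]⟩
      exact absurd (hq _ h2) (not_le.2 h1)
    rw [← Ultrafilter.eventually_not] at hnot
    filter_upwards [hnot] with a ha
    push Not at ha
    have e : (x - q) + (σ * s) • a = (σ * s) • ((σ * s⁻¹) • (x - q) + a) := by
      rw [smul_add, smul_smul]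
      have : σ * s * (σ * s⁻¹) = 1 := by
        calc σ * s * (σ * s⁻¹) = (σ * σ) * (s * s⁻¹) := by ring
          _ = 1 := by rw [hσσ, mul_inv_cancel₀ hs0.ne', one_mul]
      rw [this, one_smul]
    rw [e, norm_smul, Real.norm_eq_abs, abs_mul, hσn, one_mul, abs_of_pos hs0]
    exact mul_lt_mul_of_pos_left ha hs0
  -- generic translates keep the second half of the invariant
  have gen : ∀ (c : X) (σ : ℝ), (σ = 1 ∨ σ = -1) →
      ∀ᶠ a in (U : Filter X), 1 / 8 < ‖c + (σ * s) • a‖ := by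
    intro c σ hσ
    have hσσ : σ * σ = 1 := by rcases hσ with h | h <;> rw [h] <;> norm_num
    have hσn : |σ| = 1 := by rcases hσ with h | h <;> rw [h] <;> norm_num
    filter_upwards [he (-((σ * s⁻¹) • c))] with a ha
    have e : c + (σ * s) • a = (σ * s) • (a - -((σ * s⁻¹) • c)) := by
      rw [smul_sub, smul_neg, smul_smul]
      have : σ * s * (σ * s⁻¹) = 1 := by
        calc σ * s * (σ * s⁻¹) = (σ * σ) * (s * s⁻¹) := by ring
          _ = 1 := by rw [hσσ, mul_inv_cancel₀ hs0.ne', one_mul]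
      rw [this, one_smul]
      abel
    rw [e, norm_smul, Real.norm_eq_abs, abs_mul, hσn, one_mul, abs_of_pos hs0]
    nlinarith
  -- it suffices to find a correction and a sign
  have main : ∃ (z : X) (σ : ℝ), (σ = 1 ∨ σ = -1) ∧ ‖z‖ ≤ ε ∧
      ∀ q ∈ P, ∀ᶠ a in (U : Filter X), 2 ≤ ‖(x + z + (σ * s) • a) - q‖ := by
    by_cases hbad : ∃ p ∈ P, ∃ g ∈ G, ‖(x - p) - g‖ < 1 / 16
    · obtain ⟨p, hp, g, hg, hpg⟩ := hbad
      have hxp : 0 < ‖x - p‖ := by
        have := hx p hp
        linarith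
      obtain ⟨φ, hφ1, hφ2⟩ := exists_dual_vector'' ℝ (x - p)
      have hφle : ∀ v, φ v ≤ ‖v‖ := by
        intro v
        have h1 : φ v ≤ ‖φ v‖ := Real.le_norm_self _
        have h2 := φ.le_opNorm v
        have h3 := norm_nonneg v
        nlinarith
      have hsign : ∃ σ : ℝ, (σ = 1 ∨ σ = -1) ∧ ∀ᶠ a in (U : Filter X), 0 ≤ σ * φ a := by
        rcases Ultrafilter.em U (fun a => 0 ≤ φ a) with h | h
        · exact ⟨1, Or.inl rfl, by filter_upwards [h] with a ha; linarith⟩
        · exact ⟨-1, Or.inr rfl, by filter_upwards [h] with a ha; push Not at ha; linarith⟩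
      obtain ⟨σ, hσ, hσφ⟩ := hsign
      have hσn : |σ| = 1 := by rcases hσ with h | h <;> rw [h] <;> norm_num
      have hz : ‖(ε / ‖x - p‖) • (x - p)‖ = ε := by
        rw [norm_smul, norm_div, norm_norm, Real.norm_of_nonneg hε0.le,
          div_mul_cancel₀ _ hxp.ne']
      refine ⟨(ε / ‖x - p‖) • (x - p), σ, hσ, hz.le, ?_⟩
      intro q hq
      by_cases hqp : q = p
      · subst hqp
        filter_upwards [hσφ] with a ha
        have e : (x + (ε / ‖x - q‖) • (x - q) + (σ * s) • a) - q =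
            (x - q) + (ε / ‖x - q‖) • (x - q) + (σ * s) • a := by abel
        rw [e]
        refine le_trans ?_ (hφle _)
        rw [map_add, map_add, map_smul, map_smul, hφ2]
        have h2 : (ε / ‖x - q‖) • ((‖x - q‖ : ℝ)) = ε := by
          rw [smul_eq_mul, div_mul_cancel₀ _ hxp.ne']
        have h3 : (σ * s) • φ a = s * (σ * φ a) := by rw [smul_eq_mul]; ring
        have h4 : 0 ≤ s * (σ * φ a) := mul_nonneg hs0.le ha
        have h5 := hx q hq
        simp only [RCLike.ofReal_real_eq_id, id_eq] at *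
        rw [h2, h3]
        linarith
      · have hgood : ∀ g' ∈ G, 1 / 16 ≤ ‖(x - q) - g'‖ := by
          intro g' hg'
          by_contra hlt
          push Not at hlt
          have h1 := (hP q hq p hp hqp).2 g hg g' hg'
          have e : q - p - (g - g') = ((x - p) - g) - ((x - q) - g') := by abel
          rw [e] at h1
          have h2 := norm_sub_le ((x - p) - g) ((x - q) - g')
          linarith
        filter_upwards [good q hgood σ hσ] with a ha
        have e : (x + (ε / ‖x - p‖) • (x - p) + (σ * s) • a) - q =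
            ((x - q) + (σ * s) • a) - (-((ε / ‖x - p‖) • (x - p))) := by abel
        rw [e]
        have h1 := norm_sub_norm_le ((x - q) + (σ * s) • a) (-((ε / ‖x - p‖) • (x - p)))
        rw [norm_neg, hz] at h1
        have h2 : s * (θ + η) = s * θ + s * η := by ring
        rw [h2, hsθ] at ha
        linarith
    · push Not at hbad
      refine ⟨0, 1, Or.inl rfl, by simpa using hε0.le, ?_⟩
      intro q hq
      filter_upwards [good q (hbad q hq) 1 (Or.inl rfl)] with a ha
      have e : (x + 0 + ((1 : ℝ) * s) • a) - q = (x - q) + ((1 : ℝ) * s) • a := by abel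
      rw [e]
      have h2 : s * (θ + η) = s * θ + s * η := by ring
      rw [h2, hsθ] at ha
      linarith
  obtain ⟨z, σ, hσ, hz, hq⟩ := main
  have hσn : |σ| = 1 := by rcases hσ with h | h <;> rw [h] <;> norm_num
  have h1 : ∀ᶠ a in (U : Filter X), ∀ q ∈ P, 2 ≤ ‖(x + z + (σ * s) • a) - q‖ := by
    rw [Filter.eventually_all_finset]
    exact hq
  have h2 : ∀ᶠ a in (U : Filter X), ∀ q ∈ P, ∀ g ∈ G, ∀ g' ∈ G,
      1 / 8 < ‖(x + z + (σ * s) • a - q) - (g - g')‖ := by
    rw [Filter.eventually_all_finset]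
    intro q _
    rw [Filter.eventually_all_finset]
    intro g _
    rw [Filter.eventually_all_finset]
    intro g' _
    filter_upwards [gen (x + z - q - (g - g')) σ hσ] with a ha
    have e : (x + z + (σ * s) • a - q) - (g - g') = (x + z - q - (g - g')) + (σ * s) • a := by
      abel
    rw [e]
    exact ha
  obtain ⟨a, ⟨ha1, ha2⟩, ha3⟩ := ((h1.and h2).and hb).exists
  refine ⟨x + z + (σ * s) • a, ?_, inv_insert _ _ _ hP _ fun q hq => ⟨ha1 q hq, ha2 q hq⟩⟩
  have e : x - (x + z + (σ * s) • a) = -(z + (σ * s) • a) := by abel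
  rw [e, norm_neg]
  refine (norm_add_le _ _).trans ?_
  rw [norm_smul, Real.norm_eq_abs, abs_mul, hσn, one_mul, abs_of_pos hs0]
  have : s * ‖a‖ ≤ s * θ := mul_le_mul_of_nonneg_left ha3 hs0.le
  linarith

/-- The separable infinite-dimensional case. -/
theorem exists_net_of_noCube {X : Type*} [NormedAddCommGroup X] [NormedSpace ℝ X]
    [TopologicalSpace.SeparableSpace X] (hinf : ¬ FiniteDimensional ℝ X) (R : ℕ)
    (hno : NoCube X (1 / 32) R) :
    ∃ r < (2 : ℝ), 0 < r ∧ ∃ P : Set X, Separated 2 P ∧ RDense r P := by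
  classical
  obtain ⟨U, θ, η, F, hθ1, hθ2, hη, hη1, hb, he, hF⟩ := exists_good_type hinf (1 / 32) R hno
  obtain ⟨G, hG⟩ := exists_step U θ η F hθ1 hθ2 hη hη1 hb he hF
  -- one greedy step as a function on states
  have hstep : ∀ (x : X) (P : {P : Finset X // Inv (1 / 8) G P}),
      ∃ Q : {P : Finset X // Inv (1 / 8) G P}, P.1 ⊆ Q.1 ∧ ∃ q ∈ Q.1, ‖x - q‖ ≤ 2 - η / 8 := by
    intro x P
    by_cases h : ∃ q ∈ P.1, ‖x - q‖ ≤ 2 - η / 8
    · exact ⟨P, Subset.refl _, h⟩
    · push Not at h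
      obtain ⟨y, hy, hI⟩ := hG P.1 x P.2 h
      exact ⟨⟨insert y P.1, hI⟩, subset_insert _ _, y, mem_insert_self _ _, hy⟩
  choose nxt hsub hcov using hstep
  let D : ℕ → X := TopologicalSpace.denseSeq X
  let st : ℕ → {P : Finset X // Inv (1 / 8) G P} :=
    fun n => Nat.rec ⟨∅, inv_empty _ _⟩ (fun n P => nxt (D n) P) n
  have hst : ∀ n, st (n + 1) = nxt (D n) (st n) := fun n => rfl
  have hmono : Monotone (fun n => (st n).1) := by
    apply monotone_nat_of_le_succ
    intro n
    show (st n).1 ⊆ (st (n + 1)).1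
    rw [hst]
    exact hsub _ _
  refine ⟨2 - η / 16, by linarith, by linarith, {p | ∃ n, p ∈ (st n).1}, ?_, ?_⟩
  · rintro x ⟨n, hx⟩ y ⟨m, hy⟩ hxy
    have hx' : x ∈ (st (max n m)).1 := hmono (le_max_left n m) hx
    have hy' : y ∈ (st (max n m)).1 := hmono (le_max_right n m) hy
    exact ((st (max n m)).2 x hx' y hy' hxy).1
  · intro x
    obtain ⟨n, hn⟩ := (TopologicalSpace.denseRange_denseSeq X).exists_dist_lt x
      (show 0 < η / 16 by positivity)
    obtain ⟨q, hq, hqn⟩ := hcov (D n) (st n)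
    refine ⟨q, ⟨n + 1, by rw [hst]; exact hq⟩, ?_⟩
    have h1 : ‖x - q‖ ≤ ‖x - D n‖ + ‖D n - q‖ := norm_sub_le_norm_sub_add_norm_sub _ _ _
    have h2 : ‖x - D n‖ < η / 16 := by rw [← dist_eq_norm]; exact hn
    linarith

end Pool.Agent.Lib_helper95.Gamma
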