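import Pool.Agent.Lib_helper95.Gamma.Transfinite
import Pool.Agent.Lib_helper95.Gamma.FinDim

/-!
Super-reflexive normed spaces of any density have `gamma < 2`.
-/

namespace Pool.Agent.Lib_helper95.Gamma

open Set Cardinal

universe u v

/-- The infinite-dimensional case. -/
theorem exists_net_of_embedding {X : Type u} [NormedAddCommGroup X] [NormedSpace ℝ X]
    {Y : Type v} [NormedAddCommGroup Y] [NormedSpace ℝ Y] [UniformConvexSpace Y]
    (hinf : ¬ FiniteDimensional ℝ X) (T : X →L[ℝ] Y) (c₀ : ℝ) (hc₀ : 0 < c₀)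
    (hT : ∀ x, c₀ * ‖x‖ ≤ ‖T x‖) :
    ∃ r < (2 : ℝ), 0 < r ∧ ∃ P : Set X, Separated 2 P ∧ RDense r P := by
  obtain ⟨c, hc, hprop, d, hd⟩ := exists_cardinal hinf
  have hunion : ∀ S S' : Set X, #S < c → #S' < c → #(S ∪ S' : Set X) < c := fun S S' h h' =>
    (mk_union_le S S').trans_lt (add_lt_of_lt hc h h')
  have hsing : ∀ x : X, #({x} : Set X) < c := fun x => by
    rw [mk_singleton]
    exact one_lt_aleph0.trans_le hc
  have hempty : #(∅ : Set X) < c := by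
    rw [mk_eq_zero]
    exact aleph0_pos.trans_le hc
  obtain ⟨ε, hε0, hε, S₀, hS₀, hgen⟩ := exists_generic (fun S : Set X => #S < c) T c₀ hc₀ hT
    hempty hprop
  obtain ⟨y, hy1, hy2⟩ := exists_greedy (Far S₀) (fun v w h => h.symm) d (2 - ε)
    (fun i P hP hPfar hx => exists_step_general (fun S : Set X => #S < c) ε hε0 hε S₀ hS₀ hunion
      hsing hgen P (hP.trans_lt (by simpa using mk_Iio_lt i)) hPfar (d i) hx)
  refine ⟨2 - ε / 2, by linarith, by linarith, range y, ?_, ?_⟩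
  · rintro _ ⟨i, rfl⟩ _ ⟨j, rfl⟩ hne
    exact (hy2 i j hne).1
  · intro x
    obtain ⟨i, hi⟩ := hd.exists_dist_lt x (show 0 < ε / 2 by positivity)
    refine ⟨y i, ⟨i, rfl⟩, ?_⟩
    have h1 : ‖x - y i‖ ≤ ‖x - d i‖ + ‖d i - y i‖ := norm_sub_le_norm_sub_add_norm_sub _ _ _
    have h2 : ‖x - d i‖ < ε / 2 := by rw [← dist_eq_norm]; exact hi
    have h3 := hy1 i
    linarith

theorem gamma_lt_two_of_net {X : Type u} [NormedAddCommGroup X]
    (h : ∃ r < (2 : ℝ), 0 < r ∧ ∃ P : Set X, Separated 2 P ∧ RDense r P) : gamma X < 2 := by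
  obtain ⟨r, hr2, hr0, hP⟩ := h
  have hle : gamma X ≤ r := csInf_le ⟨0, fun t ht => ht.1.le⟩ ⟨hr0, hP⟩
  exact hle.trans_lt hr2

theorem embedding_of_superReflexive {X : Type u} [NormedAddCommGroup X] [NormedSpace ℝ X]
    (h : SuperReflexive X) :
    ∃ (Y : Type u) (_ : NormedAddCommGroup Y) (_ : NormedSpace ℝ Y) (_ : UniformConvexSpace Y)
      (T : X →L[ℝ] Y) (c₀ : ℝ), 0 < c₀ ∧ ∀ x, c₀ * ‖x‖ ≤ ‖T x‖ := by
  obtain ⟨Y, i1, i2, hY, hUC, ⟨e⟩⟩ := h
  let T : X →L[ℝ] Y := (e : UniformSpace.Completion X →L[ℝ] Y).comp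
    (UniformSpace.Completion.toComplL : X →L[ℝ] UniformSpace.Completion X)
  set c : ℝ := ‖(e.symm : Y →L[ℝ] UniformSpace.Completion X)‖ + 1 with hc
  have hc0 : 0 < c := by positivity
  refine ⟨Y, i1, i2, hUC, T, c⁻¹, inv_pos.2 hc0, fun x => ?_⟩
  have h1 : ‖(x : UniformSpace.Completion X)‖ = ‖x‖ := UniformSpace.Completion.norm_coe x
  have h2 : e.symm (T x) = (x : UniformSpace.Completion X) := e.symm_apply_apply _
  have h3 := (e.symm : Y →L[ℝ] UniformSpace.Completion X).le_opNorm (T x)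
  have h4 : ‖x‖ ≤ ‖(e.symm : Y →L[ℝ] UniformSpace.Completion X)‖ * ‖T x‖ := by
    rw [← h1, ← h2]
    exact h3
  rw [inv_mul_le_iff₀ hc0]
  have := norm_nonneg (T x)
  nlinarith

/-- Every super-reflexive normed space has `gamma < 2`. -/
theorem gamma_lt_two (X : Type u) [NormedAddCommGroup X] [NormedSpace ℝ X]
    (h : SuperReflexive X) : gamma X < 2 := by
  apply gamma_lt_two_of_net
  by_cases hfin : FiniteDimensional ℝ X
  · exact exists_net_of_finite X
  · obtain ⟨Y, i1, i2, i3, T, c₀, hc₀, hT⟩ := embedding_of_superReflexive h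
    exact exists_net_of_embedding hfin T c₀ hc₀ hT

end Pool.Agent.Lib_helper95.Gamma
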