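import Pool.Agent.Lib_helper95.Gamma.General

/-!
The transfinite recursion of the greedy construction, and the cardinal arithmetic it needs.
-/

namespace Pool.Agent.Lib_helper95.Gamma

open Set Cardinal

universe u

section Rat

variable {X : Type u} [NormedAddCommGroup X] [NormedSpace ℝ X]

/-- Rational combinations of a set. -/
noncomputable def ratComb (S : Set X) (f : S →₀ ℚ) : X := f.sum fun s q => (q : ℝ) • (s : X)

theorem ratComb_add (S : Set X) (f g : S →₀ ℚ) :
    ratComb S (f + g) = ratComb S f + ratComb S g := by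
  unfold ratComb
  apply Finsupp.sum_add_index'
  · intro s; simp
  · intro s q q'; push_cast; rw [add_smul]

theorem ratComb_smul (S : Set X) (r : ℚ) (f : S →₀ ℚ) :
    ratComb S (r • f) = (r : ℝ) • ratComb S f := by
  unfold ratComb
  rw [Finsupp.sum_smul_index (by intro s; simp), Finsupp.smul_sum]
  apply Finsupp.sum_congr
  intro s _
  push_cast
  rw [mul_smul]

theorem span_subset_closure (S : Set X) :
    (Submodule.span ℝ S : Set X) ⊆ closure (range (ratComb S)) := by
  intro x hx
  induction hx using Submodule.span_induction with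
  | mem s hs =>
    apply subset_closure
    refine ⟨Finsupp.single ⟨s, hs⟩ 1, ?_⟩
    unfold ratComb
    rw [Finsupp.sum_single_index (by simp)]
    simp
  | zero =>
    apply subset_closure
    exact ⟨0, by simp [ratComb]⟩
  | add x y _ _ hx hy =>
    refine map_mem_closure₂ continuous_add hx hy ?_
    rintro _ ⟨f, rfl⟩ _ ⟨g, rfl⟩
    exact ⟨f + g, ratComb_add S f g⟩
  | smul r x _ hx =>
    have h1 : ∀ f : S →₀ ℚ, r • ratComb S f ∈ closure (range (ratComb S)) := by
      intro f
      have hcl : IsClosed {t : ℝ | t • ratComb S f ∈ closure (range (ratComb S))} :=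
        isClosed_closure.preimage (continuous_id.smul continuous_const)
      have hsub : range ((↑) : ℚ → ℝ) ⊆
          {t : ℝ | t • ratComb S f ∈ closure (range (ratComb S))} := by
        rintro _ ⟨q, rfl⟩
        apply subset_closure
        exact ⟨q • f, ratComb_smul S q f⟩
      have hd : closure (range ((↑) : ℚ → ℝ)) = Set.univ := Rat.denseRange_cast.closure_range
      have := closure_minimal hsub hcl
      rw [hd] at this
      exact this (Set.mem_univ r)
    have h2 := map_mem_closure (continuous_const_smul r) hx (t := closure (range (ratComb S)))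
      (by rintro _ ⟨f, rfl⟩; exact h1 f)
    rwa [closure_closure] at h2

theorem dense_ratComb (S : Set X) (hS : (Submodule.span ℝ S).topologicalClosure = ⊤) :
    DenseRange (ratComb S) := by
  intro x
  have h1 : x ∈ (Submodule.span ℝ S).topologicalClosure := by rw [hS]; trivial
  have h2 : x ∈ closure (Submodule.span ℝ S : Set X) := h1
  have h3 := closure_mono (span_subset_closure S) h2
  rwa [closure_closure] at h3

/-- In an infinite-dimensional space there are a cardinal `c ≥ ℵ₀` such that sets of fewer than
`c` elements have non-dense span, and a dense family indexed by the initial ordinal of `c`. -/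
theorem exists_cardinal (hinf : ¬ FiniteDimensional ℝ X) :
    ∃ c : Cardinal.{u}, ℵ₀ ≤ c ∧
      (∀ S : Set X, #S < c → (Submodule.span ℝ S).topologicalClosure ≠ ⊤) ∧
      ∃ d : c.ord.ToType → X, DenseRange d := by
  let A : Set Cardinal.{u} :=
    {c | ∃ S : Set X, #S = c ∧ (Submodule.span ℝ S).topologicalClosure = ⊤}
  have hA : A.Nonempty := ⟨#(Set.univ : Set X), Set.univ, rfl, by
    rw [Submodule.span_univ]
    exact eq_top_iff.2 (Submodule.le_topologicalClosure _)⟩
  obtain ⟨S, hS, hSd⟩ := csInf_mem hA
  have hinfS : ℵ₀ ≤ #S := by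
    by_contra hlt
    push Not at hlt
    have hfin : S.Finite := Cardinal.lt_aleph0_iff_set_finite.1 hlt
    apply hinf
    have hfd : FiniteDimensional ℝ (Submodule.span ℝ S) := FiniteDimensional.span_of_finite ℝ hfin
    have hcl : IsClosed (Submodule.span ℝ S : Set X) :=
      (Submodule.span ℝ S).closed_of_finiteDimensional
    have htop : Submodule.span ℝ S = ⊤ := by
      rw [← hSd]
      exact (hcl.submodule_topologicalClosure_eq).symm
    rw [htop] at hfd
    exact (Submodule.topEquiv : (⊤ : Submodule ℝ X) ≃ₗ[ℝ] X).finiteDimensional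
  refine ⟨sInf A, hS ▸ hinfS, ?_, ?_⟩
  · intro S' hS' htop
    have hmem : #S' ∈ A := ⟨S', rfl, htop⟩
    exact absurd (csInf_le' hmem) (not_le.2 hS')
  · have hinf' : Infinite S := Cardinal.infinite_iff.2 hinfS
    have hcard : #(S →₀ ℚ) = sInf A := by
      rw [Cardinal.mk_finsupp_lift_of_infinite]
      simp [hS]
      rw [← hS]
      exact hinfS
    have hcard2 : #((sInf A).ord.ToType) = #(S →₀ ℚ) := by
      rw [hcard, Cardinal.mk_ord_toType]
    obtain ⟨e⟩ := Cardinal.eq.1 hcard2
    refine ⟨fun i => ratComb S (e i), ?_⟩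
    have : range (fun i => ratComb S (e i)) = range (ratComb S) := by
      rw [← e.surjective.range_comp (ratComb S)]
      rfl
    unfold DenseRange
    rw [this]
    exact dense_ratComb S hSd

end Rat

section Recursion

variable {X : Type u} [NormedAddCommGroup X]

/-- Transfinite greedy recursion. -/
theorem exists_greedy {ι : Type u} [LinearOrder ι] [WellFoundedLT ι] (F : X → X → Prop)
    (hsymm : ∀ v w, F v w → F w v) (d : ι → X) (ρ : ℝ)
    (hstep : ∀ (i : ι) (P : Set X), #P ≤ #(Iio i) → (∀ p ∈ P, ∀ q ∈ P, p ≠ q → F p q) →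
      (∀ q ∈ P, ρ < ‖d i - q‖) → ∃ y, ‖d i - y‖ ≤ ρ ∧ ∀ q ∈ P, F y q) :
    ∃ y : ι → X, (∀ i, ‖d i - y i‖ ≤ ρ) ∧ ∀ i j, y i ≠ y j → F (y i) (y j) := by
  classical
  let Good : (i : ι) → ((j : ι) → j < i → X) → X → Prop := fun i rec v =>
    ‖d i - v‖ ≤ ρ ∧ ∀ j (hj : j < i), v = rec j hj ∨ F v (rec j hj)
  let y : ι → X := (wellFounded_lt (α := ι)).fix
    (fun i rec => if h : ∃ v, Good i rec v then h.choose else 0)
  have hy : ∀ i, y i = if h : ∃ v, Good i (fun j _ => y j) v then h.choose else 0 := by
    intro i
    exact (wellFounded_lt (α := ι)).fix_eq _ i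
  have key : ∀ i, Good i (fun j _ => y j) (y i) := by
    intro i
    induction i using WellFoundedLT.induction with
    | ind i ih =>
      have hpair : ∀ j < i, ∀ k < i, y j = y k ∨ F (y j) (y k) := by
        intro j hj k hk
        rcases lt_trichotomy j k with h | h | h
        · rcases (ih k hk).2 j h with h' | h'
          · exact Or.inl h'.symm
          · exact Or.inr (hsymm _ _ h')
        · exact Or.inl (by rw [h])
        · exact (ih j hj).2 k h
      have hex : ∃ v, Good i (fun j _ => y j) v := by
        by_cases hcov : ∃ j < i, ‖d i - y j‖ ≤ ρ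
        · obtain ⟨j, hj, hjρ⟩ := hcov
          exact ⟨y j, hjρ, fun k hk => hpair j hj k hk⟩
        · push Not at hcov
          obtain ⟨v, hv, hvF⟩ := hstep i (y '' Iio i) mk_image_le (by
              rintro _ ⟨j, hj, rfl⟩ _ ⟨k, hk, rfl⟩ hne
              exact (hpair j hj k hk).resolve_left hne) (by
              rintro _ ⟨j, hj, rfl⟩
              exact hcov j hj)
          exact ⟨v, hv, fun j hj => Or.inr (hvF _ ⟨j, hj, rfl⟩)⟩
      rw [hy i, dif_pos hex]
      exact hex.choose_spec
  refine ⟨y, fun i => (key i).1, fun i j hne => ?_⟩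
  rcases lt_trichotomy i j with h | h | h
  · rcases (key j).2 i h with h' | h'
    · exact absurd h'.symm hne
    · exact hsymm _ _ h'
  · exact absurd (by rw [h]) hne
  · exact ((key i).2 j h).resolve_left hne

end Recursion

end Pool.Agent.Lib_helper95.Gamma
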