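import Pool.Agent.Lib_helper95.Gamma.Cube

/-!
A good type: an ultrafilter of bounded vectors that escapes every point by `1/2` and such that
only finitely many `δ`-balls meet the set of translates which stay in a slightly bigger ball.
-/

namespace Pool.Agent.Lib_helper95.Gamma

open Finset Filter

attribute [local instance] Ultrafilter.add

/-- The tower property of an ultrafilter. -/
def Tower {X : Type*} [NormedAddCommGroup X] (δ : ℝ) (n : ℕ) (U : Ultrafilter X) : Prop :=
  ∀ (V : Finset X) (θ : ℝ), (∀ v ∈ V, ∀ᶠ a in (U : Filter X), ‖v + a‖ ≤ θ) →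
    ∃ (b : X) (d : ℕ → X), (∀ i < n, δ ≤ ‖d i‖) ∧
      ∀ v ∈ V, ∀ S ⊆ range n, ‖v + b + ∑ i ∈ S, d i‖ ≤ θ

theorem tower_zero {X : Type*} [NormedAddCommGroup X] (δ : ℝ) (U : Ultrafilter X) :
    Tower δ 0 U := by
  intro V θ h
  have h2 : ∀ᶠ a in (U : Filter X), ∀ v ∈ V, ‖v + a‖ ≤ θ := by
    rw [Filter.eventually_all_finset]
    exact h
  obtain ⟨a, ha⟩ := h2.exists
  refine ⟨a, fun _ => 0, fun i hi => absurd hi (Nat.not_lt_zero _), fun v hv S hS => ?_⟩
  have : S = ∅ := by simpa using hS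
  subst this
  simpa using ha v hv

theorem tower_succ {X : Type*} [NormedAddCommGroup X] (δ : ℝ) (n : ℕ) (U W : Ultrafilter X)
    (hU : Tower δ n U) (hW : ∀ A ∈ W, ∃ x ∈ A, ∃ y ∈ A, δ ≤ ‖x - y‖) :
    Tower δ (n + 1) (W + U) := by
  classical
  intro V θ h
  have h2 : ∀ᶠ w in (W : Filter X), ∀ v ∈ V, ∀ᶠ a in (U : Filter X), ‖v + (w + a)‖ ≤ θ := by
    rw [Filter.eventually_all_finset]
    intro v hv
    exact (Ultrafilter.eventually_add W U _).1 (h v hv)
  obtain ⟨x, hx, y, hy, hxy⟩ := hW _ h2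
  obtain ⟨b, d, hd, hb⟩ := hU (V.image (fun v => v + x) ∪ V.image (fun v => v + y)) θ (by
    intro v' hv'
    rw [mem_union, mem_image, mem_image] at hv'
    rcases hv' with ⟨v, hv, rfl⟩ | ⟨v, hv, rfl⟩
    · filter_upwards [hx v hv] with a ha
      rwa [add_assoc]
    · filter_upwards [hy v hv] with a ha
      rwa [add_assoc])
  refine ⟨x + b, Function.update d n (y - x), ?_, ?_⟩
  · intro i hi
    by_cases hin : i = n
    · subst hin
      rw [Function.update_self, norm_sub_rev]
      exact hxy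
    · rw [Function.update_of_ne hin]
      exact hd i (by omega)
  · intro v hv S hS
    have hsum : ∀ S' ⊆ range n, ∑ i ∈ S', Function.update d n (y - x) i = ∑ i ∈ S', d i := by
      intro S' hS'
      apply sum_congr rfl
      intro i hi
      have := mem_range.1 (hS' hi)
      rw [Function.update_of_ne (by omega)]
    by_cases hn : n ∈ S
    · have hS' : S.erase n ⊆ range n := by
        intro i hi
        have h1 := mem_range.1 (hS (mem_of_mem_erase hi))
        have h2 := ne_of_mem_erase hi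
        exact mem_range.2 (by omega)
      rw [← add_sum_erase S _ hn, hsum _ hS', Function.update_self]
      have := hb (v + y) (mem_union_right _ (mem_image_of_mem _ hv)) _ hS'
      have e : v + (x + b) + (y - x + ∑ i ∈ S.erase n, d i) = v + y + b + ∑ i ∈ S.erase n, d i := by
        abel
      rw [e]
      exact this
    · have hS' : S ⊆ range n := by
        intro i hi
        have h1 := mem_range.1 (hS hi)
        have h2 : i ≠ n := fun h => hn (h ▸ hi)
        exact mem_range.2 (by omega)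
      rw [hsum _ hS']
      have := hb (v + x) (mem_union_left _ (mem_image_of_mem _ hv)) _ hS'
      have e : v + (x + b) + ∑ i ∈ S, d i = v + x + b + ∑ i ∈ S, d i := by
        abel
      rw [e]
      exact this

/-- A tower of full height inside the ball of radius `2` contradicts `NoCube`. -/
theorem not_tower {X : Type*} [NormedAddCommGroup X] [NormedSpace ℝ X] (δ : ℝ) (R : ℕ)
    (hno : NoCube X δ R) (U : Ultrafilter X) (hU : ∀ᶠ a in (U : Filter X), ‖a‖ ≤ 2) :
    ¬ Tower δ R U := by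
  classical
  intro hT
  obtain ⟨b, d, hd, hb⟩ := hT {0} 2 (by
    intro v hv
    rw [mem_singleton] at hv
    subst hv
    simpa using hU)
  obtain ⟨σ, hσ, h4⟩ := hno d hd
  have hb' : ∀ S ⊆ range R, ‖b + ∑ i ∈ S, d i‖ ≤ 2 := by
    intro S hS
    have := hb 0 (mem_singleton_self _) S hS
    simpa using this
  have e : ∑ i ∈ range R, σ i • d i =
      (b + ∑ i ∈ (range R).filter (fun i => σ i = 1), d i) -
      (b + ∑ i ∈ (range R).filter (fun i => ¬ σ i = 1), d i) := by
    rw [← sum_filter_add_sum_filter_not (range R) (fun i => σ i = 1) (fun i => σ i • d i)]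
    have e1 : ∑ i ∈ (range R).filter (fun i => σ i = 1), σ i • d i =
        ∑ i ∈ (range R).filter (fun i => σ i = 1), d i := by
      apply sum_congr rfl
      intro i hi
      rw [(mem_filter.1 hi).2, one_smul]
    have e2 : ∑ i ∈ (range R).filter (fun i => ¬ σ i = 1), σ i • d i =
        - ∑ i ∈ (range R).filter (fun i => ¬ σ i = 1), d i := by
      rw [← sum_neg_distrib]
      apply sum_congr rfl
      intro i hi
      rcases hσ i with h | h
      · exact absurd h (mem_filter.1 hi).2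
      · rw [h, neg_one_smul]
    rw [e1, e2]
    abel
  have h5 := norm_sub_le (b + ∑ i ∈ (range R).filter (fun i => σ i = 1), d i)
    (b + ∑ i ∈ (range R).filter (fun i => ¬ σ i = 1), d i)
  rw [← e] at h5
  have h6 := hb' _ (filter_subset (fun i => σ i = 1) (range R))
  have h7 := hb' _ (filter_subset (fun i => ¬ σ i = 1) (range R))
  linarith

/-- A criterion for a family of conditions to be met by an ultrafilter. -/
theorem exists_ultrafilter_of_finite {X : Type*} (K : Set X) (p : X → X → Prop)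
    (hK : ∀ F : Finset X, ∃ v ∈ K, ∀ f ∈ F, p f v) :
    ∃ W : Ultrafilter X, K ∈ W ∧ ∀ f, ∀ᶠ v in (W : Filter X), p f v := by
  classical
  set L : Finset X → Filter X := fun F => 𝓟 {v | v ∈ K ∧ ∀ f ∈ F, p f v} with hL
  have hdir : Directed (· ≥ ·) L := by
    intro F F'
    refine ⟨F ∪ F', ?_, ?_⟩
    · exact principal_mono.2 (fun v hv => ⟨hv.1, fun f hf => hv.2 f (mem_union_left _ hf)⟩)
    · exact principal_mono.2 (fun v hv => ⟨hv.1, fun f hf => hv.2 f (mem_union_right _ hf)⟩)
  have hne : (⨅ F, L F).NeBot := by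
    refine iInf_neBot_of_directed' hdir (fun F => ?_)
    rw [hL]
    refine principal_neBot_iff.2 ?_
    obtain ⟨v, hv, hvf⟩ := hK F
    exact ⟨v, hv, hvf⟩
  obtain ⟨W, hW⟩ := exists_ultrafilter_le (⨅ F, L F)
  have hmem : ∀ F : Finset X, {v | v ∈ K ∧ ∀ f ∈ F, p f v} ∈ W := fun F =>
    hW (mem_iInf_of_mem F (mem_principal_self _))
  refine ⟨W, mem_of_superset (hmem ∅) (fun v hv => hv.1), fun f => ?_⟩
  exact mem_of_superset (hmem {f}) (fun v hv => hv.2 f (mem_singleton_self f))

/-- If `K` is not covered by finitely many open balls of radius `δ` then some ultrafilter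
containing `K` has only members with two points at distance at least `δ`. -/
theorem exists_spread {X : Type*} [NormedAddCommGroup X] (δ : ℝ) (K : Set X)
    (hK : ∀ F : Finset X, ∃ v ∈ K, ∀ f ∈ F, δ ≤ ‖v - f‖) :
    ∃ W : Ultrafilter X, K ∈ W ∧ ∀ A ∈ W, ∃ x ∈ A, ∃ y ∈ A, δ ≤ ‖x - y‖ := by
  obtain ⟨W, hKW, hW⟩ := exists_ultrafilter_of_finite K (fun f v => δ ≤ ‖v - f‖) hK
  refine ⟨W, hKW, ?_⟩
  intro A hA
  obtain ⟨x, hx⟩ := W.nonempty_of_mem hA
  have h1 : A ∩ {v | δ ≤ ‖v - x‖} ∈ W := inter_mem hA (hW x)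
  obtain ⟨y, hy⟩ := W.nonempty_of_mem h1
  exact ⟨y, hy.1, x, hx, hy.2⟩

/-- Riesz: in an infinite-dimensional space the unit ball contains a point at distance at least
`1/2` from any given finite set. -/
theorem exists_far {X : Type*} [NormedAddCommGroup X] [NormedSpace ℝ X]
    (hinf : ¬ FiniteDimensional ℝ X) (F : Finset X) :
    ∃ v ∈ {v : X | ‖v‖ ≤ 1}, ∀ f ∈ F, 1 / 2 ≤ ‖v - f‖ := by
  set M : Submodule ℝ X := Submodule.span ℝ (F : Set X) with hM
  have hfd : FiniteDimensional ℝ M := FiniteDimensional.span_finset ℝ F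
  have hcl : IsClosed (M : Set X) := M.closed_of_finiteDimensional
  have hne : ∃ x : X, x ∉ M := by
    by_contra hcon
    push Not at hcon
    apply hinf
    have htop : M = ⊤ := by
      rw [eq_top_iff]
      intro x _
      exact hcon x
    rw [htop] at hfd
    exact (Submodule.topEquiv : (⊤ : Submodule ℝ X) ≃ₗ[ℝ] X).finiteDimensional
  obtain ⟨x₀, hx₀, hx⟩ := riesz_lemma hcl hne (r := 1 / 2) (by norm_num)
  have hx0 : x₀ ≠ 0 := fun h => hx₀ (h ▸ M.zero_mem)
  have hpos : 0 < ‖x₀‖ := norm_pos_iff.2 hx0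
  refine ⟨‖x₀‖⁻¹ • x₀, ?_, ?_⟩
  · rw [Set.mem_ofPred_eq, norm_smul, norm_inv, norm_norm, inv_mul_cancel₀ hpos.ne']
  · intro f hf
    have hfM : f ∈ M := Submodule.subset_span hf
    have h1 := hx (‖x₀‖ • f) (M.smul_mem _ hfM)
    have e : ‖x₀‖⁻¹ • x₀ - f = ‖x₀‖⁻¹ • (x₀ - ‖x₀‖ • f) := by
      rw [smul_sub, smul_smul, inv_mul_cancel₀ hpos.ne', one_smul]
    rw [e, norm_smul, norm_inv, norm_norm, inv_mul_eq_div, le_div_iff₀ hpos]
    exact h1

/-- The bounded escaping type supplied by the tower argument. -/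
theorem exists_good_type {X : Type*} [NormedAddCommGroup X] [NormedSpace ℝ X]
    (hinf : ¬ FiniteDimensional ℝ X) (δ : ℝ) (R : ℕ) (hno : NoCube X δ R) :
    ∃ (U : Ultrafilter X) (θ η : ℝ) (F : Finset X), 1 ≤ θ ∧ θ ≤ 2 ∧ 0 < η ∧ η ≤ 1 ∧
      (∀ᶠ a in (U : Filter X), ‖a‖ ≤ θ) ∧
      (∀ c : X, ∀ᶠ a in (U : Filter X), 1 / 2 ≤ ‖a - c‖) ∧
      (∀ v : X, (∀ᶠ a in (U : Filter X), ‖v + a‖ ≤ θ + η) → ∃ f ∈ F, ‖v - f‖ < δ) := by
  set η : ℝ := 1 / ((R : ℝ) + 1) with hη
  have hηpos : 0 < η := by positivity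
  have hR : (0 : ℝ) ≤ R := Nat.cast_nonneg R
  have hη1 : η ≤ 1 := by
    rw [hη, div_le_one (by positivity)]
    linarith
  have hRη : (R : ℝ) * η ≤ 1 := by
    rw [hη, mul_one_div, div_le_one (by positivity)]
    linarith
  by_contra hcon
  have key : ∀ n ≤ R, ∃ U : Ultrafilter X, Tower δ n U ∧
      (∀ᶠ a in (U : Filter X), ‖a‖ ≤ 1 + n * η) ∧
      (∀ c : X, ∀ᶠ a in (U : Filter X), 1 / 2 ≤ ‖a - c‖) := by
    intro n
    induction n with
    | zero =>
      intro _
      obtain ⟨U, hU1, hU2⟩ := exists_ultrafilter_of_finite {v : X | ‖v‖ ≤ 1}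
        (fun f v => 1 / 2 ≤ ‖v - f‖) (exists_far hinf)
      refine ⟨U, tower_zero δ U, ?_, hU2⟩
      filter_upwards [hU1] with a ha
      simpa using ha
    | succ n ih =>
      intro hn
      obtain ⟨U, hT, hb, he⟩ := ih (by omega)
      have hnR : (n : ℝ) ≤ R := by exact_mod_cast (by omega : n ≤ R)
      have hnη : (n : ℝ) * η ≤ R * η := mul_le_mul_of_nonneg_right hnR hηpos.le
      have hn0 : 0 ≤ (n : ℝ) * η := by positivity
      have hK : ∀ F : Finset X, ∃ v ∈ {v : X | ∀ᶠ a in (U : Filter X), ‖v + a‖ ≤ 1 + n * η + η},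
          ∀ f ∈ F, δ ≤ ‖v - f‖ := by
        intro F
        by_contra hF
        push Not at hF
        exact hcon ⟨U, 1 + n * η, η, F, by linarith, by linarith, hηpos, hη1, hb, he, hF⟩
      obtain ⟨W, hKW, hW⟩ := exists_spread δ _ hK
      refine ⟨W + U, tower_succ δ n U W hT hW, ?_, ?_⟩
      · rw [Ultrafilter.eventually_add]
        filter_upwards [hKW] with w hw
        filter_upwards [hw] with a ha
        push_cast
        linarith
      · intro c
        rw [Ultrafilter.eventually_add]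
        filter_upwards with w
        filter_upwards [he (c - w)] with a ha
        have e : w + a - c = a - (c - w) := by abel
        rw [e]
        exact ha
  obtain ⟨U, hT, hb, -⟩ := key R le_rfl
  refine not_tower δ R hno U ?_ hT
  filter_upwards [hb] with a ha
  linarith

end Pool.Agent.Lib_helper95.Gamma
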